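import Pool.Agent.H14.GamForce

/-!
Partial homomorphisms on dense subsets of `ZMod p`, and three lines through a point.
-/

set_option autoImplicit false

namespace Pool.Agent.H14.Gam

open Finset

section

variable {p : ℕ} [Fact p.Prime]

theorem exists_avoid (T : List (Finset (ZMod p))) (h : (T.map Finset.card).sum < p) :
    ∃ x, ∀ S ∈ T, x ∉ S := by
  classical
  have key : ∀ T : List (Finset (ZMod p)),
      (T.foldr (fun a b => a ∪ b) ∅).card ≤ (T.map Finset.card).sum := by
    intro T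
    induction T with
    | nil => simp
    | cons a T ih =>
      simp only [List.foldr_cons, List.map_cons, List.sum_cons]
      exact (card_union_le _ _).trans (Nat.add_le_add_left ih _)
  have hlt : (T.foldr (fun a b => a ∪ b) ∅).card < (univ : Finset (ZMod p)).card := by
    rw [Finset.card_univ, ZMod.card]
    exact (key T).trans_lt h
  obtain ⟨x, -, hx⟩ := exists_mem_notMem_of_card_lt_card hlt
  refine ⟨x, fun S hS hxS => hx ?_⟩
  clear h hlt hx
  induction T with
  | nil => simp at hS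
  | cons a T ih =>
    simp only [List.foldr_cons, mem_union]
    rcases List.mem_cons.1 hS with rfl | hS
    · exact Or.inl hxS
    · exact Or.inr (ih hS)

/-- A partial homomorphism on dense sets forces the characteristic. -/
theorem add_force {K : Type} [Field K] (A B C : Finset (ZMod p)) (α β κ : ZMod p → K)
    (h : ∀ a ∈ A, ∀ k ∈ C, a + k ∈ B → β (a + k) = α a + κ k)
    (hinj : ∀ b ∈ B, ∀ b' ∈ B, b ≠ b' → β b ≠ β b')
    (hA : 4 * Aᶜ.card < p) (hB : 4 * Bᶜ.card < p) (hC : 4 * Cᶜ.card < p) : (p : K) = 0 := by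
  classical
  -- differences
  have hd : ∀ d b b' : ZMod p, b ∈ B → b + d ∈ B → b' ∈ B → b' + d ∈ B →
      β (b + d) - β b = β (b' + d) - β b' := by
    intro d b b' hb hbd hb' hbd'
    obtain ⟨k, hk⟩ := exists_avoid [Cᶜ, Cᶜ.image (fun x => x - d), Aᶜ.image (fun x => b - x),
      Aᶜ.image (fun x => b' - x)] (by
        simp only [List.map_cons, List.map_nil, List.sum_cons, List.sum_nil]
        have h1 : (Cᶜ.image (fun x => x - d)).card ≤ Cᶜ.card := card_image_le
        have h2 : (Aᶜ.image (fun x => b - x)).card ≤ Aᶜ.card := card_image_le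
        have h3 : (Aᶜ.image (fun x => b' - x)).card ≤ Aᶜ.card := card_image_le
        omega)
    have k1 : k ∈ C := by
      have := hk Cᶜ (by simp)
      simpa using this
    have k2 : k + d ∈ C := by
      have := hk (Cᶜ.image (fun x => x - d)) (by simp)
      by_contra hc
      exact this (mem_image.2 ⟨k + d, mem_compl.2 hc, by ring⟩)
    have k3 : b - k ∈ A := by
      have := hk (Aᶜ.image (fun x => b - x)) (by simp)
      by_contra hc
      exact this (mem_image.2 ⟨b - k, mem_compl.2 hc, by ring⟩)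
    have k4 : b' - k ∈ A := by
      have := hk (Aᶜ.image (fun x => b' - x)) (by simp)
      by_contra hc
      exact this (mem_image.2 ⟨b' - k, mem_compl.2 hc, by ring⟩)
    have e1 := h _ k3 _ k1 (by rwa [sub_add_cancel])
    have e2 := h _ k3 _ k2 (by rwa [← add_assoc, sub_add_cancel])
    have e3 := h _ k4 _ k1 (by rwa [sub_add_cancel])
    have e4 := h _ k4 _ k2 (by rwa [← add_assoc, sub_add_cancel])
    rw [sub_add_cancel] at e1 e3
    rw [← add_assoc, sub_add_cancel] at e2 e4
    rw [e1, e2, e3, e4]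
    ring
  -- the difference function
  have hex : ∀ d : ZMod p, ∃ b, b ∈ B ∧ b + d ∈ B := by
    intro d
    obtain ⟨b, hb⟩ := exists_avoid [Bᶜ, Bᶜ.image (fun x => x - d)] (by
        simp only [List.map_cons, List.map_nil, List.sum_cons, List.sum_nil]
        have h1 : (Bᶜ.image (fun x => x - d)).card ≤ Bᶜ.card := card_image_le
        omega)
    refine ⟨b, ?_, ?_⟩
    · have := hb Bᶜ (by simp)
      simpa using this
    · have := hb (Bᶜ.image (fun x => x - d)) (by simp)
      by_contra hc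
      exact this (mem_image.2 ⟨b + d, mem_compl.2 hc, by ring⟩)
  choose bb hbb using hex
  obtain ⟨lam, hlam⟩ : ∃ lam : ZMod p → K, lam = fun d => β (bb d + d) - β (bb d) := ⟨_, rfl⟩
  have hl : ∀ d b : ZMod p, b ∈ B → b + d ∈ B → β (b + d) - β b = lam d := by
    intro d b hb hbd
    rw [hlam]
    exact hd d b (bb d) hb hbd (hbb d).1 (hbb d).2
  have hadd : ∀ d : ZMod p, lam (d + 1) = lam d + lam 1 := by
    intro d
    obtain ⟨b, hb⟩ := exists_avoid [Bᶜ, Bᶜ.image (fun x => x - d),
      Bᶜ.image (fun x => x - (d + 1))] (by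
        simp only [List.map_cons, List.map_nil, List.sum_cons, List.sum_nil]
        have h1 : (Bᶜ.image (fun x => x - d)).card ≤ Bᶜ.card := card_image_le
        have h2 : (Bᶜ.image (fun x => x - (d + 1))).card ≤ Bᶜ.card := card_image_le
        omega)
    have k1 : b ∈ B := by
      have := hb Bᶜ (by simp)
      simpa using this
    have k2 : b + d ∈ B := by
      have := hb (Bᶜ.image (fun x => x - d)) (by simp)
      by_contra hc
      exact this (mem_image.2 ⟨b + d, mem_compl.2 hc, by ring⟩)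
    have k3 : b + (d + 1) ∈ B := by
      have := hb (Bᶜ.image (fun x => x - (d + 1))) (by simp)
      by_contra hc
      exact this (mem_image.2 ⟨b + (d + 1), mem_compl.2 hc, by ring⟩)
    have e1 := hl d b k1 k2
    have e2 := hl (d + 1) b k1 k3
    have e3 := hl 1 (b + d) k2 (by rwa [add_assoc])
    rw [← e1, ← e2, ← e3, add_assoc b d 1]
    ring
  have h0 : lam 0 = 0 := by
    have := hl 0 (bb 0) (hbb 0).1 (by rw [add_zero]; exact (hbb 0).1)
    rw [← this, add_zero, sub_self]
  have hn : ∀ n : ℕ, lam (n : ZMod p) = n * lam 1 := by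
    intro n
    induction n with
    | zero => simp [h0]
    | succ n ih =>
      push_cast
      rw [hadd, ih]
      ring
  have h1 : lam 1 ≠ 0 := by
    rw [hlam]
    simp only
    intro e
    exact hinj _ (hbb 1).2 _ (hbb 1).1 (by simp) (sub_eq_zero.1 e)
  have hp := hn p
  rw [ZMod.natCast_self, h0] at hp
  exact (mul_eq_zero.1 hp.symm).resolve_right h1

end

section

variable {p : ℕ} [Fact p.Prime] {K W : Type} [Field K] [AddCommGroup W] [Module K W]

/-- Three dense lines through a point force the characteristic. -/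
theorem three_lines {C : Set (Fin 3 → ZMod p)} {H : (Fin 3 → ZMod p) → W} (tr : Tr C H K)
    (nsm : ∀ y ∈ C, ∀ z ∈ C, (∀ s t : ZMod p, s ≠ 0 → t ≠ 0 → s • y ≠ t • z) →
      ∀ t : K, H y ≠ t • H z)
    (ind : ∀ x ∈ C, ∀ y ∈ C, ∀ z ∈ C, LinearIndependent (ZMod p) ![x, y, z] →
      LinearIndependent K ![H x, H y, H z])
    (cX : vX p ∈ C) {t₁ t₂ t₃ : ZMod p} (h12 : t₁ ≠ t₂) (h13 : t₁ ≠ t₃) (h23 : t₂ ≠ t₃)
    {l₁ l₃ : ZMod p} (hl1 : l₁ ≠ 0) (hl3 : l₃ ≠ 0) (hs1 : l₁ + l₃ = 1)
    (hs2 : l₁ * t₁ + l₃ * t₃ = t₂)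
    (A B D : Finset (ZMod p)) (mA : ∀ a ∈ A, (![a, l₁ * t₁, l₁] : Fin 3 → ZMod p) ∈ C)
    (mB : ∀ a ∈ B, (![a, t₂, 1] : Fin 3 → ZMod p) ∈ C)
    (mD : ∀ a ∈ D, (![a, l₃ * t₃, l₃] : Fin 3 → ZMod p) ∈ C)
    (hA : 4 * Aᶜ.card < p) (hB : 4 * Bᶜ.card < p) (hD : 4 * Dᶜ.card < p) : (p : K) = 0 := by
  classical
  -- base points
  obtain ⟨k₀, hk₀⟩ := exists_avoid [Dᶜ] (by
    simp only [List.map_cons, List.map_nil, List.sum_cons, List.sum_nil]
    omega)
  have mk0 : k₀ ∈ D := by
    have := hk₀ Dᶜ (by simp)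
    simpa using this
  obtain ⟨a₀, ha₀⟩ := exists_avoid [Aᶜ, Bᶜ.image (fun x => x - k₀)] (by
    simp only [List.map_cons, List.map_nil, List.sum_cons, List.sum_nil]
    have h1 : (Bᶜ.image (fun x => x - k₀)).card ≤ Bᶜ.card := card_image_le
    omega)
  have ma0 : a₀ ∈ A := by
    have := ha₀ Aᶜ (by simp)
    simpa using this
  have mb0 : a₀ + k₀ ∈ B := by
    have := ha₀ (Bᶜ.image (fun x => x - k₀)) (by simp)
    by_contra hc
    exact this (mem_image.2 ⟨a₀ + k₀, mem_compl.2 hc, by ring⟩)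
  have cP0 := mA _ ma0
  have cD0 := mD _ mk0
  have cQ0 := mB _ mb0
  have hQP : ∀ a k : ZMod p, (![a + k, t₂, 1] : Fin 3 → ZMod p) =
      (1 : ZMod p) • ![a, l₁ * t₁, l₁] + (1 : ZMod p) • ![k, l₃ * t₃, l₃] := by
    intro a k
    ext i
    fin_cases i <;> simp [hs1, hs2]
  obtain ⟨s, r, e0⟩ := tr.col _ cP0 _ cD0 _ cQ0 1 1 (hQP a₀ k₀)
  have hs : s ≠ 0 := by
    rintro rfl
    refine nsm _ cQ0 _ cD0 ?_ r (by rw [e0]; simp)
    intro s t hs ht e
    have f1 := congrFun e 1
    have f2 := congrFun e 2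
    simp at f1 f2
    apply h23
    have : t * l₃ ≠ 0 := mul_ne_zero ht hl3
    apply mul_left_cancel₀ this
    rw [← f2, f1, f2]
    ring
  have hr : r ≠ 0 := by
    rintro rfl
    refine nsm _ cQ0 _ cP0 ?_ s (by rw [e0]; simp)
    intro s t hs ht e
    have f1 := congrFun e 1
    have f2 := congrFun e 2
    simp at f1 f2
    apply h12
    have : t * l₁ ≠ 0 := mul_ne_zero ht hl1
    apply mul_left_cancel₀ this
    rw [← f2, f1, f2]
    ring
  have hind := ind _ cX _ cP0 _ cD0 (by
    rw [Fintype.linearIndependent_iff]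
    intro g hg
    rw [Fin.sum_univ_three] at hg
    have g0 := congrFun hg 0
    have g1 := congrFun hg 1
    have g2 := congrFun hg 2
    simp [vX] at g0 g1 g2
    have e1 : g 1 * l₁ * (t₁ - t₃) = 0 := by linear_combination g1 - t₃ * g2
    have z1 : g 1 = 0 := by
      rcases mul_eq_zero.1 e1 with h | h
      · exact (mul_eq_zero.1 h).resolve_right hl1
      · exact absurd (sub_eq_zero.1 h) h13
    have z2 : g 2 = 0 := by
      rw [z1, zero_mul, zero_add] at g2
      exact (mul_eq_zero.1 g2).resolve_right hl3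
    have z0 : g 0 = 0 := by
      rw [z1, z2] at g0
      simpa using g0
    intro i
    fin_cases i
    · exact z0
    · exact z1
    · exact z2)
  obtain ⟨x, hx⟩ : ∃ x, x = H (vX p) := ⟨_, rfl⟩
  obtain ⟨v, hv⟩ : ∃ v, v = s • H ![a₀, l₁ * t₁, l₁] := ⟨_, rfl⟩
  obtain ⟨o, ho⟩ : ∃ o, o = r • H ![k₀, l₃ * t₃, l₃] := ⟨_, rfl⟩
  have hi' : LinearIndependent K ![x, v, o] := by
    rw [Fintype.linearIndependent_iff] at hind ⊢
    intro g hg
    have := hind ![g 0, g 1 * s, g 2 * r] (by
      rw [Fin.sum_univ_three] at hg ⊢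
      simp only [Matrix.cons_val_zero, Matrix.cons_val_one, Matrix.cons_val] at hg ⊢
      rw [hx, hv, ho] at hg
      rw [← hg]
      module)
    intro i
    fin_cases i
    · have h0 := this 0
      simpa using h0
    · have h0 := this 1
      simpa [hs] using h0
    · have h0 := this 2
      simp only [Matrix.cons_val] at h0
      exact (mul_eq_zero.1 h0).resolve_right hr
  -- coordinates of the points of the three lines
  have hP : ∀ a ∈ A, ∃ y : K, IsF H x v o ![a, l₁ * t₁, l₁] y 1 0 := by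
    intro a ha
    obtain ⟨σ, τ, e⟩ := tr.col _ cX _ cP0 _ (mA a ha) (a - a₀) 1 (by
      ext i
      fin_cases i <;> simp [vX])
    have hτ : τ ≠ 0 := by
      rintro rfl
      refine nsm _ (mA a ha) _ cX ?_ σ (by rw [e]; simp)
      intro s t hs ht e
      have f2 := congrFun e 2
      simp [vX] at f2
      rcases f2 with h | h
      · exact hs h
      · exact hl1 h
    refine ⟨σ * s / τ, τ / s, div_ne_zero hτ hs, ?_⟩
    rw [e]
    unfold FF
    rw [hx, hv]
    have q1 : τ / s * (σ * s / τ) = σ := by field_simp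
    have q2 : τ / s * s = τ := by field_simp
    have q3 : (τ / s) • ((σ * s / τ) • H (vX p) + (1 : K) • s • H ![a₀, l₁ * t₁, l₁] +
        (0 : K) • o) = (τ / s * (σ * s / τ)) • H (vX p) +
        (τ / s * s) • H ![a₀, l₁ * t₁, l₁] := by module
    rw [q3, q1, q2]
  have hDD : ∀ a ∈ D, ∃ y : K, IsF H x v o ![a, l₃ * t₃, l₃] y 0 1 := by
    intro a ha
    obtain ⟨σ, τ, e⟩ := tr.col _ cX _ cD0 _ (mD a ha) (a - k₀) 1 (by
      ext i
      fin_cases i <;> simp [vX])
    have hτ : τ ≠ 0 := by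
      rintro rfl
      refine nsm _ (mD a ha) _ cX ?_ σ (by rw [e]; simp)
      intro s t hs ht e
      have f2 := congrFun e 2
      simp [vX] at f2
      rcases f2 with h | h
      · exact hs h
      · exact hl3 h
    refine ⟨σ * r / τ, τ / r, div_ne_zero hτ hr, ?_⟩
    rw [e]
    unfold FF
    rw [hx, ho]
    have q1 : τ / r * (σ * r / τ) = σ := by field_simp
    have q2 : τ / r * r = τ := by field_simp
    have q3 : (τ / r) • ((σ * r / τ) • H (vX p) + (0 : K) • v +
        (1 : K) • r • H ![k₀, l₃ * t₃, l₃]) = (τ / r * (σ * r / τ)) • H (vX p) +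
        (τ / r * r) • H ![k₀, l₃ * t₃, l₃] := by module
    rw [q3, q1, q2]
  have hQ : ∀ a ∈ B, ∃ y : K, IsF H x v o ![a, t₂, 1] y 1 1 := by
    intro a ha
    obtain ⟨σ, τ, e⟩ := tr.col _ cX _ cQ0 _ (mB a ha) (a - (a₀ + k₀)) 1 (by
      ext i
      fin_cases i <;> simp [vX])
    have hτ : τ ≠ 0 := by
      rintro rfl
      refine nsm _ (mB a ha) _ cX ?_ σ (by rw [e]; simp)
      intro s t hs ht e
      have f2 := congrFun e 2
      simp [vX] at f2
      exact hs f2
    refine ⟨σ / τ, τ, hτ, ?_⟩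
    rw [e, e0]
    unfold FF
    rw [← hx, ← hv, ← ho]
    have q1 : τ * (σ / τ) = σ := by field_simp
    have q3 : τ • ((σ / τ) • x + (1 : K) • v + (1 : K) • o) = (τ * (σ / τ)) • x + τ • (v + o) := by
      module
    rw [q3, q1]
  choose! α hα using hP
  choose! κ hκ using hDD
  choose! β hβ using hQ
  refine add_force A B D α β κ ?_ ?_ hA hB hD
  · intro a ha k hk hb
    obtain ⟨σ, τ, e⟩ := tr.col _ (mA a ha) _ (mD k hk) _ (mB _ hb) 1 1 (hQP a k)
    obtain ⟨u1, hu1, e1⟩ := hα a ha
    obtain ⟨u2, hu2, e2⟩ := hκ k hk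
    obtain ⟨u3, hu3, e3⟩ := hβ _ hb
    rw [e1, e2, e3] at e
    have e4 : FF x v o (u3 * β (a + k)) u3 u3 =
        FF x v o (σ * u1 * α a + τ * u2 * κ k) (σ * u1) (τ * u2) := by
      have l1 : FF x v o (u3 * β (a + k)) u3 u3 = u3 • FF x v o (β (a + k)) 1 1 := by
        unfold FF
        module
      have l2 : FF x v o (σ * u1 * α a + τ * u2 * κ k) (σ * u1) (τ * u2) =
          σ • u1 • FF x v o (α a) 1 0 + τ • u2 • FF x v o (κ k) 0 1 := by
        unfold FF
        module
      rw [l1, l2, e]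
    obtain ⟨f1, f2, f3⟩ := FF_inj hi' e4
    rw [← f2, ← f3] at f1
    have : u3 * (β (a + k) - (α a + κ k)) = 0 := by linear_combination f1
    exact sub_eq_zero.1 ((mul_eq_zero.1 this).resolve_left hu3)
  · intro b hb b' hb' hbb e
    obtain ⟨u, hu, e1⟩ := hβ b hb
    obtain ⟨u', hu', e2⟩ := hβ b' hb'
    refine nsm _ (mB b hb) _ (mB b' hb') ?_ (u / u') ?_
    · intro s t hs ht e
      have f2 := congrFun e 2
      have f0 := congrFun e 0
      simp at f0 f2
      rw [f2] at f0
      exact hbb (mul_left_cancel₀ ht f0)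
    · rw [e1, e2, e, smul_smul, div_mul_cancel₀ _ hu']

end

end Pool.Agent.H14.Gam
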