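import Mathlib

/-!
A configuration of `O(log p)` points of the plane over `ZMod p` which forces the characteristic `p`.
-/

set_option autoImplicit false

namespace Pool.Agent.H14.Gam

variable {p : ℕ}

/-- vectors of the configuration -/
def vX (p : ℕ) : Fin 3 → ZMod p := ![1, 0, 0]
def vV (p : ℕ) : Fin 3 → ZMod p := ![0, 1, 0]
def vO (p : ℕ) : Fin 3 → ZMod p := ![0, 0, 1]
def vD (p : ℕ) : Fin 3 → ZMod p := ![1, 1, 0]
def vR (p : ℕ) : Fin 3 → ZMod p := ![0, 1, 1]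
def vA (p : ℕ) : Fin 3 → ZMod p := ![1, -1, 0]
def vP (p k : ℕ) : Fin 3 → ZMod p := ![(k : ZMod p), 0, 1]
def vT (p k : ℕ) : Fin 3 → ZMod p := ![(k : ZMod p), (k : ZMod p), 1]
def vQ (p k : ℕ) : Fin 3 → ZMod p := ![(k : ZMod p), 1, 1]

section force

variable {K W : Type} [Field K] [AddCommGroup W] [Module K W]

/-- the data transported from the first to the second representation -/
structure Tr (C : Set (Fin 3 → ZMod p)) (H : (Fin 3 → ZMod p) → W) (K : Type) [Field K]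
    [Module K W] : Prop where
  nz : ∀ c ∈ C, H c ≠ 0
  col : ∀ a ∈ C, ∀ b ∈ C, ∀ c ∈ C, ∀ s t : ZMod p, c = s • a + t • b →
    ∃ σ τ : K, H c = σ • H a + τ • H b

/-- coordinates -/
def FF (x v o : W) (a b d : K) : W := a • x + b • v + d • o

theorem FF_inj {x v o : W} (h : LinearIndependent K ![x, v, o]) {a b d a' b' d' : K}
    (e : FF x v o a b d = FF x v o a' b' d') : a = a' ∧ b = b' ∧ d = d' := by
  have h2 := Fintype.linearIndependent_iff.1 h ![a - a', b - b', d - d'] (by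
    simp only [Fin.sum_univ_three, Matrix.cons_val_zero, Matrix.cons_val_one, Matrix.cons_val]
    unfold FF at e
    have : (a • x + b • v + d • o) - (a' • x + b' • v + d' • o) = 0 := sub_eq_zero.2 e
    rw [← this]
    module)
  refine ⟨?_, ?_, ?_⟩
  · have := h2 0
    simpa [sub_eq_zero] using this
  · have := h2 1
    simpa [sub_eq_zero] using this
  · have := h2 2
    simpa [sub_eq_zero] using this

/-- `H c` is a nonzero multiple of the vector with the coordinates `a, b, d` -/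
def IsF (H : (Fin 3 → ZMod p) → W) (x v o : W) (c : Fin 3 → ZMod p) (a b d : K) : Prop :=
  ∃ t : K, t ≠ 0 ∧ H c = t • FF x v o a b d

theorem IsF.of {H : (Fin 3 → ZMod p) → W} {x v o : W} {c : Fin 3 → ZMod p} {a b d t : K}
    (hc : H c ≠ 0) (h : H c = FF x v o (t * a) (t * b) (t * d)) : IsF H x v o c a b d := by
  refine ⟨t, ?_, ?_⟩
  · rintro rfl
    apply hc
    rw [h]
    simp [FF]
  · rw [h]
    unfold FF
    module

theorem step {C : Set (Fin 3 → ZMod p)} {H : (Fin 3 → ZMod p) → W} (tr : Tr C H K) {x v o : W}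
    (hi : LinearIndependent K ![x, v, o]) {c a₁ b₁ a₂ b₂ : Fin 3 → ZMod p} (hc : c ∈ C)
    (ha₁ : a₁ ∈ C) (hb₁ : b₁ ∈ C) (ha₂ : a₂ ∈ C) (hb₂ : b₂ ∈ C) (s₁ t₁ s₂ t₂ : ZMod p)
    (e₁ : c = s₁ • a₁ + t₁ • b₁) (e₂ : c = s₂ • a₂ + t₂ • b₂)
    {p₁ p₂ p₃ q₁ q₂ q₃ r₁ r₂ r₃ u₁ u₂ u₃ : K}
    (h1 : IsF H x v o a₁ p₁ p₂ p₃) (h2 : IsF H x v o b₁ q₁ q₂ q₃)
    (h3 : IsF H x v o a₂ r₁ r₂ r₃) (h4 : IsF H x v o b₂ u₁ u₂ u₃) :
    ∃ σ τ σ' τ' : K, H c = FF x v o (σ * p₁ + τ * q₁) (σ * p₂ + τ * q₂) (σ * p₃ + τ * q₃) ∧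
      σ * p₁ + τ * q₁ = σ' * r₁ + τ' * u₁ ∧ σ * p₂ + τ * q₂ = σ' * r₂ + τ' * u₂ ∧
      σ * p₃ + τ * q₃ = σ' * r₃ + τ' * u₃ := by
  obtain ⟨t1, -, h1⟩ := h1
  obtain ⟨t2, -, h2⟩ := h2
  obtain ⟨t3, -, h3⟩ := h3
  obtain ⟨t4, -, h4⟩ := h4
  obtain ⟨σ, τ, g1⟩ := tr.col _ ha₁ _ hb₁ _ hc _ _ e₁
  obtain ⟨σ', τ', g2⟩ := tr.col _ ha₂ _ hb₂ _ hc _ _ e₂
  have k1 : H c = FF x v o (σ * t1 * p₁ + τ * t2 * q₁) (σ * t1 * p₂ + τ * t2 * q₂)
      (σ * t1 * p₃ + τ * t2 * q₃) := by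
    rw [g1, h1, h2]
    unfold FF
    module
  have k2 : H c = FF x v o (σ' * t3 * r₁ + τ' * t4 * u₁) (σ' * t3 * r₂ + τ' * t4 * u₂)
      (σ' * t3 * r₃ + τ' * t4 * u₃) := by
    rw [g2, h3, h4]
    unfold FF
    module
  obtain ⟨l1, l2, l3⟩ := FF_inj hi (k1.symm.trans k2)
  exact ⟨σ * t1, τ * t2, σ' * t3, τ' * t4, k1, l1, l2, l3⟩

/-- the membership of the points for the number `n` -/
def Need (C : Set (Fin 3 → ZMod p)) (n : ℕ) : Prop :=
  ∀ i, vP p (n / 2 ^ i) ∈ C ∧ vT p (n / 2 ^ i) ∈ C ∧ vQ p (n / 2 ^ i) ∈ C ∧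
    vP p (2 * (n / 2 ^ (i + 1))) ∈ C

theorem Need.half {C : Set (Fin 3 → ZMod p)} {n : ℕ} (h : Need C n) : Need C (n / 2) := by
  intro i
  have := h (i + 1)
  rw [Nat.div_div_eq_div_mul, ← pow_succ', Nat.div_div_eq_div_mul, ← pow_succ']
  exact this

section norm

variable {C : Set (Fin 3 → ZMod p)} {H : (Fin 3 → ZMod p) → W} {x v o : W}

theorem chain (tr : Tr C H K)
    (hi : LinearIndependent K ![x, v, o])
    (cX : vX p ∈ C) (cV : vV p ∈ C) (cO : vO p ∈ C) (cD : vD p ∈ C) (cR : vR p ∈ C)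
    (cA : vA p ∈ C) (cP : vP p 1 ∈ C) (cQ : vQ p 1 ∈ C)
    (hX : IsF H x v o (vX p) (1 : K) 0 0) (hV : IsF H x v o (vV p) (0 : K) 1 0)
    (hO : IsF H x v o (vO p) (0 : K) 0 1) (hD : IsF H x v o (vD p) (1 : K) 1 0)
    (hR : IsF H x v o (vR p) (0 : K) 1 1) :
    ∀ n : ℕ, 1 ≤ n → Need C n → IsF H x v o (vP p n) (n : K) 0 1 := by
  -- the point `(1, 1, 1)`
  have hQ1 : IsF H x v o (vQ p 1) (1 : K) 1 1 := by
    obtain ⟨σ, τ, σ', τ', h, e1, e2, e3⟩ := step tr hi cQ cO cD cX cR 1 1 1 1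
      (by ext i; fin_cases i <;> simp [vQ, vO, vD]) (by ext i; fin_cases i <;> simp [vQ, vX, vR])
      hO hD hX hR
    refine IsF.of (t := τ) (tr.nz _ cQ) ?_
    rw [h]
    have : σ = τ := by linear_combination e3 - e2
    rw [this]
    congr 1 <;> ring
  have hP1 : IsF H x v o (vP p 1) (1 : K) 0 1 := by
    obtain ⟨σ, τ, σ', τ', h, e1, e2, e3⟩ := step tr hi cP cX cO cQ cV 1 1 1 (-1)
      (by ext i; fin_cases i <;> simp [vP, vO, vX]) (by ext i; fin_cases i <;> simp [vP, vQ, vV])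
      hX hO hQ1 hV
    refine IsF.of (t := τ) (tr.nz _ cP) ?_
    rw [h]
    have : σ = τ := by linear_combination e1 - e3
    rw [this]
    congr 1 <;> ring
  have hA : IsF H x v o (vA p) (1 : K) (-1) 0 := by
    obtain ⟨σ, τ, σ', τ', h, e1, e2, e3⟩ := step tr hi cA cX cV cP cR 1 (-1) 1 (-1)
      (by ext i; fin_cases i <;> simp [vA, vV, vX]) (by ext i; fin_cases i <;> simp [vA, vP, vR])
      hX hV hP1 hR
    refine IsF.of (t := σ) (tr.nz _ cA) ?_
    rw [h]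
    have : τ = -σ := by linear_combination e1 + e2 - e3
    rw [this]
    congr 1 <;> ring
  intro n
  induction n using Nat.strong_induction_on with
  | _ n ih =>
  intro hn hneed
  by_cases h1 : n = 1
  · rw [h1]
    simpa using hP1
  obtain ⟨k, hk⟩ : ∃ k, k = n / 2 := ⟨_, rfl⟩
  have hk1 : 1 ≤ k := by omega
  have hkn : k < n := by omega
  have ihk := ih k hkn hk1 (by rw [hk]; exact hneed.half)
  have m0 := hneed 0
  have m1 := hneed 1
  simp only [pow_zero, Nat.div_one, zero_add, pow_one, ← hk] at m0 m1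
  have hT : IsF H x v o (vT p k) (k : K) k 1 := by
    obtain ⟨σ, τ, σ', τ', h, e1, e2, e3⟩ := step tr hi m1.2.1 cO cD m1.1 cV 1 k 1 k
      (by ext i; fin_cases i <;> simp [vT, vO, vD]) (by ext i; fin_cases i <;> simp [vT, vP, vV])
      hO hD ihk hV
    refine IsF.of (t := σ) (tr.nz _ m1.2.1) ?_
    rw [h]
    have : τ = σ * k := by linear_combination e1 - k * e3
    rw [this]
    congr 1 <;> ring
  have hP2 : IsF H x v o (vP p (2 * k)) ((2 * k : ℕ) : K) 0 1 := by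
    obtain ⟨σ, τ, σ', τ', h, e1, e2, e3⟩ := step tr hi m0.2.2.2 cX cO m1.2.1 cA
      ((2 * k : ℕ) : ZMod p) 1 1 k
      (by ext i; fin_cases i <;> simp [vP, vO, vX])
      (by ext i; fin_cases i <;> simp [vT, vP, vA]; ring)
      hX hO hT hA
    refine IsF.of (t := τ) (tr.nz _ m0.2.2.2) ?_
    rw [h]
    have : σ = τ * ((2 * k : ℕ) : K) := by
      push_cast
      linear_combination e1 + e2 - 2 * k * e3
    rw [this]
    congr 1 <;> ring
  rcases (by omega : n = 2 * k ∨ n = 2 * k + 1) with h2 | h2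
  · rw [h2]
    exact hP2
  · have hQn : IsF H x v o (vQ p n) (n : K) 1 1 := by
      obtain ⟨σ, τ, σ', τ', h, e1, e2, e3⟩ := step tr hi m0.2.2.1 m0.2.2.2 cD cX cR 1 1 n 1
        (by ext i; fin_cases i <;> simp [vP, vQ, vD, h2]) (by ext i; fin_cases i <;> simp [vQ, vX, vR])
        hP2 hD hX hR
      refine IsF.of (t := σ) (tr.nz _ m0.2.2.1) ?_
      rw [h]
      have : τ = σ := by linear_combination e2 - e3
      rw [this, h2]
      push_cast
      congr 1 <;> ring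
    obtain ⟨σ, τ, σ', τ', h, e1, e2, e3⟩ := step tr hi m0.1 cX cO m0.2.2.1 cV n 1 1 (-1)
      (by ext i; fin_cases i <;> simp [vP, vO, vX]) (by ext i; fin_cases i <;> simp [vP, vQ, vV])
      hX hO hQn hV
    refine IsF.of (t := τ) (tr.nz _ m0.1) ?_
    rw [h]
    have : σ = τ * n := by linear_combination e1 - n * e3
    rw [this]
    congr 1 <;> ring

end norm

/-- The configuration forces the characteristic. -/
theorem force {C : Set (Fin 3 → ZMod p)} {H : (Fin 3 → ZMod p) → W} (hp : 1 ≤ p) (tr : Tr C H K)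
    (cX : vX p ∈ C) (cV : vV p ∈ C) (cO : vO p ∈ C) (cD : vD p ∈ C) (cR : vR p ∈ C)
    (cA : vA p ∈ C) (cP : vP p 1 ∈ C) (cQ : vQ p 1 ∈ C) (hneed : Need C p)
    (hi : LinearIndependent K ![H (vX p), H (vV p), H (vO p)])
    (hDX : ∀ t : K, H (vD p) ≠ t • H (vX p)) (hDV : ∀ t : K, H (vD p) ≠ t • H (vV p))
    (hRV : ∀ t : K, H (vR p) ≠ t • H (vV p)) (hRO : ∀ t : K, H (vR p) ≠ t • H (vO p)) :
    (p : K) = 0 := by
  obtain ⟨a, b, hD⟩ := tr.col _ cX _ cV _ cD 1 1 (by ext i; fin_cases i <;> simp [vD, vX, vV])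
  obtain ⟨a', b', hR⟩ := tr.col _ cV _ cO _ cR 1 1 (by ext i; fin_cases i <;> simp [vR, vO, vV])
  have ha : a ≠ 0 := by
    rintro rfl
    exact hDV b (by rw [hD]; simp)
  have hb : b ≠ 0 := by
    rintro rfl
    exact hDX a (by rw [hD]; simp)
  have ha' : a' ≠ 0 := by
    rintro rfl
    exact hRO b' (by rw [hR]; simp)
  have hb' : b' ≠ 0 := by
    rintro rfl
    exact hRV a' (by rw [hR]; simp)
  obtain ⟨x, hx⟩ : ∃ x, x = a • H (vX p) := ⟨_, rfl⟩
  obtain ⟨v, hv⟩ : ∃ v, v = b • H (vV p) := ⟨_, rfl⟩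
  obtain ⟨o, ho⟩ : ∃ o, o = (b' * b / a') • H (vO p) := ⟨_, rfl⟩
  have hc : b' * b / a' ≠ 0 := div_ne_zero (mul_ne_zero hb' hb) ha'
  have hi' : LinearIndependent K ![x, v, o] := by
    rw [Fintype.linearIndependent_iff] at hi ⊢
    intro g hg
    have := hi ![g 0 * a, g 1 * b, g 2 * (b' * b / a')] (by
      rw [Fin.sum_univ_three] at hg ⊢
      simp only [Matrix.cons_val_zero, Matrix.cons_val_one, Matrix.cons_val] at hg ⊢
      rw [hx, hv, ho] at hg
      rw [← hg]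
      module)
    intro i
    fin_cases i
    · have h0 := this 0
      simpa [ha] using h0
    · have h0 := this 1
      simpa [hb] using h0
    · have h0 := this 2
      simp only [Matrix.cons_val] at h0
      exact (mul_eq_zero.1 h0).resolve_right hc
  have hXn : IsF H x v o (vX p) (1 : K) 0 0 := by
    refine ⟨a⁻¹, inv_ne_zero ha, ?_⟩
    simp [FF, hx, smul_smul, ha]
  have hVn : IsF H x v o (vV p) (0 : K) 1 0 := by
    refine ⟨b⁻¹, inv_ne_zero hb, ?_⟩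
    simp [FF, hv, smul_smul, hb]
  have hOn : IsF H x v o (vO p) (0 : K) 0 1 := by
    refine ⟨(b' * b / a')⁻¹, inv_ne_zero hc, ?_⟩
    simp only [FF, ho, zero_smul, zero_add, smul_smul, one_mul]
    rw [inv_mul_cancel₀ hc, one_smul]
  have hDn : IsF H x v o (vD p) (1 : K) 1 0 := by
    refine ⟨1, one_ne_zero, ?_⟩
    simp [FF, hD, hx, hv]
  have hRn : IsF H x v o (vR p) (0 : K) 1 1 := by
    refine ⟨a' / b, div_ne_zero ha' hb, ?_⟩
    simp only [FF, hR, hv, ho, zero_smul, one_smul, zero_add, smul_smul, smul_add]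
    congr 2 <;> field_simp
  obtain ⟨t, ht, h⟩ := chain tr hi' cX cV cO cD cR cA cP cQ hXn hVn hOn hDn hRn p hp hneed
  have hPO : vP p p = vO p := by
    ext i
    fin_cases i <;> simp [vP, vO]
  obtain ⟨t', ht', h'⟩ := hOn
  rw [hPO, h'] at h
  have e : FF x v o (t' * 0) (t' * 0) (t' * 1) = FF x v o (t * (p : K)) (t * 0) (t * 1) := by
    have l1 : FF x v o (t' * 0) (t' * 0) (t' * 1) = t' • FF x v o (0 : K) 0 1 := by
      unfold FF
      module
    have l2 : FF x v o (t * (p : K)) (t * 0) (t * 1) = t • FF x v o (p : K) 0 1 := by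
      unfold FF
      module
    rw [l1, l2]
    exact h
  obtain ⟨e1, -, -⟩ := FF_inj hi' e
  have : t * (p : K) = 0 := by rw [← e1, mul_zero]
  exact (mul_eq_zero.1 this).resolve_left ht

end force

end Pool.Agent.H14.Gam
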