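import Pool.Graph.R_seed8.Results.MP_5049a2_lc.FourAgents

/-!
Maximin shares with additive valuations: certified exhaustive checks for instances with five or six
agents and two different valuations.
-/

set_option autoImplicit false

namespace Pool.Agent.H14.MMS56

open Pool.Agent.Results.MP_5049a2_lc.FourAgents

/-- `a` is a bit mask of the numbers `x + 128 y` for pairs `(x, y)` of sums, `s` the total: some
pair in the mask has `k ≤ x`, `k ≤ y` and `k ≤ s - x - y`. -/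
def split3 (a s k : ℕ) : Bool :=
  decide (3 * k ≤ s) && (List.range (s + 1 - 3 * k)).any fun i =>
    (a >>> (128 * (k + i) + k)) % 2 ^ (s + 1 - 3 * k - i) != 0

theorem split3_of {a s k x y z : ℕ} (ha : a.testBit (x + 128 * y) = true) (hs : s = x + y + z)
    (hx : k ≤ x) (hy : k ≤ y) (hz : k ≤ z) : split3 a s k = true := by
  unfold split3
  rw [Bool.and_eq_true]
  refine ⟨decide_eq_true (by omega), ?_⟩
  rw [List.any_eq_true]
  refine ⟨y - k, by rw [List.mem_range]; omega, ?_⟩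
  rw [bne_iff_ne]
  intro h
  have h1 : ((a >>> (128 * (k + (y - k)) + k)) % 2 ^ (s + 1 - 3 * k - (y - k))).testBit (x - k) =
      true := by
    rw [Nat.testBit_mod_two_pow, Nat.testBit_shiftRight,
      show 128 * (k + (y - k)) + k + (x - k) = x + 128 * y by omega, ha]
    simp only [Bool.and_true, decide_eq_true_eq]
    omega
  rw [h] at h1
  simp at h1

theorem testBit_zero3 {a t : ℕ} (r u : ℕ) (h : a.testBit t = true) :
    (a ||| (a <<< r) ||| (a <<< u)).testBit t = true := by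
  rw [Nat.testBit_or, Nat.testBit_or, h, Bool.true_or, Bool.true_or]

theorem testBit_one3 {a t : ℕ} (r u : ℕ) (h : a.testBit t = true) :
    (a ||| (a <<< r) ||| (a <<< u)).testBit (t + r) = true := by
  rw [Nat.testBit_or, Nat.testBit_or, Nat.testBit_shiftLeft]
  simp [h]

theorem testBit_two3 {a t : ℕ} (r u : ℕ) (h : a.testBit t = true) :
    (a ||| (a <<< r) ||| (a <<< u)).testBit (t + u) = true := by
  rw [Nat.testBit_or, Nat.testBit_shiftLeft]
  simp [h]

/-- Sum of the values of the goods of the list with label `j`. -/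
def sumF {n : ℕ} (f : ℕ × ℕ → ℕ) (j : Fin n) : List ((ℕ × ℕ) × Fin n) → ℕ
  | [] => 0
  | x :: xs => (if x.2 = j then f x.1 else 0) + sumF f j xs

/-- total of the values -/
def tot {n : ℕ} (f : ℕ × ℕ → ℕ) : List ((ℕ × ℕ) × Fin n) → ℕ
  | [] => 0
  | x :: xs => f x.1 + tot f xs

theorem sumF_ofFn {n : ℕ} (f : ℕ × ℕ → ℕ) (j : Fin n) : ∀ {m : ℕ}
    (x : Fin m → (ℕ × ℕ) × Fin n),
    sumF f j (List.ofFn x) = ∑ g, if (x g).2 = j then f (x g).1 else 0
  | 0, x => by simp [sumF]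
  | m + 1, x => by
    rw [List.ofFn_succ, sumF, sumF_ofFn f j, Fin.sum_univ_succ]

theorem tot_ofFn {n : ℕ} (f : ℕ × ℕ → ℕ) : ∀ {m : ℕ} (x : Fin m → (ℕ × ℕ) × Fin n),
    tot f (List.ofFn x) = ∑ g, f (x g).1
  | 0, x => by simp [tot]
  | m + 1, x => by
    rw [List.ofFn_succ, tot, tot_ofFn f, Fin.sum_univ_succ]

/-! ### Five agents -/

/-- Exhaustive check over all ways to give each good to the first three or to the last two
agents; the mask `a` collects the possible pairs of values of the bundles of agents 0 and 1, the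
mask `b` the possible values of the bundle of agent 3. The numbers `p`, `q` bound the total values
of the goods still to be given. -/
def check5 (k l : ℕ) : List (ℕ × ℕ) → ℕ → ℕ → ℕ → ℕ → ℕ → ℕ → Bool
  | [], _, _, a, s, b, t => !(split b t l && split3 a s k)
  | x :: xs, p, q, a, s, b, t =>
    !(decide (3 * k ≤ s + p) && decide (2 * l ≤ t + q)) ||
    (check5 k l xs (p - x.1) (q - x.2) (a ||| (a <<< x.1) ||| (a <<< (128 * x.1))) (s + x.1) b t &&
    check5 k l xs (p - x.1) (q - x.2) a s (b ||| (b <<< x.2)) (t + x.2))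

theorem fin5_cases : ∀ j : Fin 5, j = 0 ∨ j = 1 ∨ j = 2 ∨ j = 3 ∨ j = 4 := by decide

theorem sum3_le5 (f : ℕ × ℕ → ℕ) : ∀ xs : List ((ℕ × ℕ) × Fin 5),
    sumF f 0 xs + sumF f 1 xs + sumF f 2 xs ≤ tot f xs
  | [] => by simp [sumF, tot]
  | (y, j) :: xs => by
    have ih := sum3_le5 f xs
    simp only [sumF, tot]
    rcases fin5_cases j with rfl | rfl | rfl | rfl | rfl <;> simp <;> omega

theorem sum2_le5 (f : ℕ × ℕ → ℕ) : ∀ xs : List ((ℕ × ℕ) × Fin 5),
    sumF f 3 xs + sumF f 4 xs ≤ tot f xs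
  | [] => by simp [sumF, tot]
  | (y, j) :: xs => by
    have ih := sum2_le5 f xs
    simp only [sumF, tot]
    rcases fin5_cases j with rfl | rfl | rfl | rfl | rfl <;> simp <;> omega

theorem check5_sound (k l : ℕ) : ∀ (xs : List ((ℕ × ℕ) × Fin 5)) (p q a s b t : ℕ),
    tot Prod.fst xs ≤ p → tot Prod.snd xs ≤ q →
    check5 k l (xs.map Prod.fst) p q a s b t = true →
    ∀ r0 r1 r2 c0 c1 : ℕ, a.testBit (r0 + 128 * r1) = true → s = r0 + r1 + r2 →
    b.testBit c0 = true → t = c0 + c1 →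
    ¬ (k ≤ r0 + sumF Prod.fst 0 xs ∧ k ≤ r1 + sumF Prod.fst 1 xs ∧ k ≤ r2 + sumF Prod.fst 2 xs ∧
      l ≤ c0 + sumF Prod.snd 3 xs ∧ l ≤ c1 + sumF Prod.snd 4 xs)
  | [], p, q, a, s, b, t => by
    intro _ _ h r0 r1 r2 c0 c1 ha hs hb ht ⟨h0, h1, h2, h3, h4⟩
    simp only [sumF, add_zero] at h0 h1 h2 h3 h4
    simp only [List.map_nil, check5] at h
    rw [split3_of ha hs h0 h1 h2, split_of hb ht h3 h4] at h
    simp at h
  | (y, j) :: xs, p, q, a, s, b, t => by
    intro hp hq h r0 r1 r2 c0 c1 ha hs hb ht hall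
    have e1 := sum3_le5 Prod.fst ((y, j) :: xs)
    have e2 := sum2_le5 Prod.snd ((y, j) :: xs)
    obtain ⟨h0, h1, h2, h3, h4⟩ := hall
    simp only [List.map_cons, check5] at h
    rw [Bool.or_eq_true, Bool.and_eq_true] at h
    rcases h with h | ⟨hl, hr⟩
    · rw [decide_eq_true (by omega : 3 * k ≤ s + p), decide_eq_true (by omega : 2 * l ≤ t + q)] at h
      simp at h
    · simp only [tot] at hp hq
      simp only [sumF] at h0 h1 h2 h3 h4
      have hp' : tot Prod.fst xs ≤ p - y.1 := by omega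
      have hq' : tot Prod.snd xs ≤ q - y.2 := by omega
      rcases fin5_cases j with rfl | rfl | rfl | rfl | rfl
      · refine check5_sound k l xs _ _ _ _ _ _ hp' hq' hl (r0 + y.1) r1 r2 c0 c1 ?_ (by omega) hb ht
          ⟨?_, ?_, ?_, ?_, ?_⟩
        · rw [show r0 + y.1 + 128 * r1 = (r0 + 128 * r1) + y.1 by omega]
          exact testBit_one3 _ _ ha
        all_goals (simp at h0 h1 h2 h3 h4 ⊢; omega)
      · refine check5_sound k l xs _ _ _ _ _ _ hp' hq' hl r0 (r1 + y.1) r2 c0 c1 ?_ (by omega) hb ht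
          ⟨?_, ?_, ?_, ?_, ?_⟩
        · rw [show r0 + 128 * (r1 + y.1) = (r0 + 128 * r1) + 128 * y.1 by omega]
          exact testBit_two3 _ _ ha
        all_goals (simp at h0 h1 h2 h3 h4 ⊢; omega)
      · refine check5_sound k l xs _ _ _ _ _ _ hp' hq' hl r0 r1 (r2 + y.1) c0 c1
          (testBit_zero3 _ _ ha) (by omega) hb ht ⟨?_, ?_, ?_, ?_, ?_⟩
        all_goals (simp at h0 h1 h2 h3 h4 ⊢; omega)
      · refine check5_sound k l xs _ _ _ _ _ _ hp' hq' hr r0 r1 r2 (c0 + y.2) c1 ha hs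
          (testBit_right _ hb) (by omega) ⟨?_, ?_, ?_, ?_, ?_⟩
        all_goals (simp at h0 h1 h2 h3 h4 ⊢; omega)
      · refine check5_sound k l xs _ _ _ _ _ _ hp' hq' hr r0 r1 r2 c0 (c1 + y.2) ha hs
          (testBit_left _ hb) (by omega) ⟨?_, ?_, ?_, ?_, ?_⟩
        all_goals (simp at h0 h1 h2 h3 h4 ⊢; omega)

/-! ### Six agents -/

/-- Exhaustive check over all ways to give each good to the first three or to the last three
agents. -/
def check6 (k l : ℕ) : List (ℕ × ℕ) → ℕ → ℕ → ℕ → ℕ → ℕ → ℕ → Bool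
  | [], _, _, a, s, b, t => !(split3 b t l && split3 a s k)
  | x :: xs, p, q, a, s, b, t =>
    !(decide (3 * k ≤ s + p) && decide (3 * l ≤ t + q)) ||
    (check6 k l xs (p - x.1) (q - x.2) (a ||| (a <<< x.1) ||| (a <<< (128 * x.1))) (s + x.1) b t &&
    check6 k l xs (p - x.1) (q - x.2) a s (b ||| (b <<< x.2) ||| (b <<< (128 * x.2))) (t + x.2))

theorem fin6_cases : ∀ j : Fin 6, j = 0 ∨ j = 1 ∨ j = 2 ∨ j = 3 ∨ j = 4 ∨ j = 5 := by decide

theorem sum3_le6 (f : ℕ × ℕ → ℕ) : ∀ xs : List ((ℕ × ℕ) × Fin 6),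
    sumF f 0 xs + sumF f 1 xs + sumF f 2 xs ≤ tot f xs
  | [] => by simp [sumF, tot]
  | (y, j) :: xs => by
    have ih := sum3_le6 f xs
    simp only [sumF, tot]
    rcases fin6_cases j with rfl | rfl | rfl | rfl | rfl | rfl <;> simp <;> omega

theorem sum3_le6' (f : ℕ × ℕ → ℕ) : ∀ xs : List ((ℕ × ℕ) × Fin 6),
    sumF f 3 xs + sumF f 4 xs + sumF f 5 xs ≤ tot f xs
  | [] => by simp [sumF, tot]
  | (y, j) :: xs => by
    have ih := sum3_le6' f xs
    simp only [sumF, tot]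
    rcases fin6_cases j with rfl | rfl | rfl | rfl | rfl | rfl <;> simp <;> omega

theorem check6_sound (k l : ℕ) : ∀ (xs : List ((ℕ × ℕ) × Fin 6)) (p q a s b t : ℕ),
    tot Prod.fst xs ≤ p → tot Prod.snd xs ≤ q →
    check6 k l (xs.map Prod.fst) p q a s b t = true →
    ∀ r0 r1 r2 c0 c1 c2 : ℕ, a.testBit (r0 + 128 * r1) = true → s = r0 + r1 + r2 →
    b.testBit (c0 + 128 * c1) = true → t = c0 + c1 + c2 →
    ¬ (k ≤ r0 + sumF Prod.fst 0 xs ∧ k ≤ r1 + sumF Prod.fst 1 xs ∧ k ≤ r2 + sumF Prod.fst 2 xs ∧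
      l ≤ c0 + sumF Prod.snd 3 xs ∧ l ≤ c1 + sumF Prod.snd 4 xs ∧ l ≤ c2 + sumF Prod.snd 5 xs)
  | [], p, q, a, s, b, t => by
    intro _ _ h r0 r1 r2 c0 c1 c2 ha hs hb ht ⟨h0, h1, h2, h3, h4, h5⟩
    simp only [sumF, add_zero] at h0 h1 h2 h3 h4 h5
    simp only [List.map_nil, check6] at h
    rw [split3_of ha hs h0 h1 h2, split3_of hb ht h3 h4 h5] at h
    simp at h
  | (y, j) :: xs, p, q, a, s, b, t => by
    intro hp hq h r0 r1 r2 c0 c1 c2 ha hs hb ht hall
    have e1 := sum3_le6 Prod.fst ((y, j) :: xs)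
    have e2 := sum3_le6' Prod.snd ((y, j) :: xs)
    obtain ⟨h0, h1, h2, h3, h4, h5⟩ := hall
    simp only [List.map_cons, check6] at h
    rw [Bool.or_eq_true, Bool.and_eq_true] at h
    rcases h with h | ⟨hl, hr⟩
    · rw [decide_eq_true (by omega : 3 * k ≤ s + p), decide_eq_true (by omega : 3 * l ≤ t + q)] at h
      simp at h
    · simp only [tot] at hp hq
      simp only [sumF] at h0 h1 h2 h3 h4 h5
      have hp' : tot Prod.fst xs ≤ p - y.1 := by omega
      have hq' : tot Prod.snd xs ≤ q - y.2 := by omega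
      rcases fin6_cases j with rfl | rfl | rfl | rfl | rfl | rfl
      · refine check6_sound k l xs _ _ _ _ _ _ hp' hq' hl (r0 + y.1) r1 r2 c0 c1 c2 ?_ (by omega)
          hb ht ⟨?_, ?_, ?_, ?_, ?_, ?_⟩
        · rw [show r0 + y.1 + 128 * r1 = (r0 + 128 * r1) + y.1 by omega]
          exact testBit_one3 _ _ ha
        all_goals (simp at h0 h1 h2 h3 h4 h5 ⊢; omega)
      · refine check6_sound k l xs _ _ _ _ _ _ hp' hq' hl r0 (r1 + y.1) r2 c0 c1 c2 ?_ (by omega)
          hb ht ⟨?_, ?_, ?_, ?_, ?_, ?_⟩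
        · rw [show r0 + 128 * (r1 + y.1) = (r0 + 128 * r1) + 128 * y.1 by omega]
          exact testBit_two3 _ _ ha
        all_goals (simp at h0 h1 h2 h3 h4 h5 ⊢; omega)
      · refine check6_sound k l xs _ _ _ _ _ _ hp' hq' hl r0 r1 (r2 + y.1) c0 c1 c2
          (testBit_zero3 _ _ ha) (by omega) hb ht ⟨?_, ?_, ?_, ?_, ?_, ?_⟩
        all_goals (simp at h0 h1 h2 h3 h4 h5 ⊢; omega)
      · refine check6_sound k l xs _ _ _ _ _ _ hp' hq' hr r0 r1 r2 (c0 + y.2) c1 c2 ha hs ?_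
          (by omega) ⟨?_, ?_, ?_, ?_, ?_, ?_⟩
        · rw [show c0 + y.2 + 128 * c1 = (c0 + 128 * c1) + y.2 by omega]
          exact testBit_one3 _ _ hb
        all_goals (simp at h0 h1 h2 h3 h4 h5 ⊢; omega)
      · refine check6_sound k l xs _ _ _ _ _ _ hp' hq' hr r0 r1 r2 c0 (c1 + y.2) c2 ha hs ?_
          (by omega) ⟨?_, ?_, ?_, ?_, ?_, ?_⟩
        · rw [show c0 + 128 * (c1 + y.2) = (c0 + 128 * c1) + 128 * y.2 by omega]
          exact testBit_two3 _ _ hb
        all_goals (simp at h0 h1 h2 h3 h4 h5 ⊢; omega)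
      · refine check6_sound k l xs _ _ _ _ _ _ hp' hq' hr r0 r1 r2 c0 c1 (c2 + y.2) ha hs
          (testBit_zero3 _ _ hb) (by omega) ⟨?_, ?_, ?_, ?_, ?_, ?_⟩
        all_goals (simp at h0 h1 h2 h3 h4 h5 ⊢; omega)

/-! ### From integral values to the maximin shares -/

/-- If the agents of a set `T` have the values `v₁` and the others the values `v₂`, the values `v₁`
(`v₂`) can be partitioned into `n` bundles of value at least `K₁` (`K₂`), and no allocation gives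
values at least `t₁` (`t₂`) to all of them, then no allocation is `α`-MMS for
`α > max ((t₁ - 1) / K₁) ((t₂ - 1) / K₂)`. -/
theorem no_of {n m : ℕ} [NeZero n] (T : Fin n → Bool) (v₁ v₂ : Fin m → ℕ) (K₁ t₁ K₂ t₂ : ℕ)
    (P₁ P₂ : Fin m → Fin n)
    (h₁ : ∀ j, K₁ ≤ ∑ g, if P₁ g = j then v₁ g else 0)
    (h₂ : ∀ j, K₂ ≤ ∑ g, if P₂ g = j then v₂ g else 0)
    (hK₁ : 1 ≤ K₁) (hK₂ : 1 ≤ K₂) (ht₁ : 1 ≤ t₁) (ht₂ : 1 ≤ t₂) (A : Fin m → Fin n)
    (hA : ¬ ∀ i, if T i = true then t₁ ≤ ∑ g, (if A g = i then v₁ g else 0)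
      else t₂ ≤ ∑ g, (if A g = i then v₂ g else 0))
    (α : ℝ) (hα₁ : ((t₁ : ℝ) - 1) / (K₁ : ℝ) < α) (hα₂ : ((t₂ : ℝ) - 1) / (K₂ : ℝ) < α) :
    ¬ IsAlphaMMS α (fun i g => if T i = true then (v₁ g : ℝ) else (v₂ g : ℝ)) A := by
  intro h
  apply hA
  intro i
  have key : ∀ (v : Fin m → ℕ) (K t : ℕ) (P : Fin m → Fin n),
      (∀ j, K ≤ ∑ g, if P g = j then v g else 0) → 1 ≤ K → 1 ≤ t → ((t : ℝ) - 1) / (K : ℝ) < α →
      α * mms n (fun g => (v g : ℝ)) ≤ bundleVal (fun g => (v g : ℝ)) A i →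
      t ≤ ∑ g, if A g = i then v g else 0 := by
    intro v K t P hP hK ht hα hle
    have hm : (K : ℝ) ≤ mms n (fun g => (v g : ℝ)) :=
      le_mms _ P _ fun j => by
        rw [bundle_cast]
        exact_mod_cast hP j
    rw [bundle_cast] at hle
    have hK0 : (0 : ℝ) < K := by exact_mod_cast hK
    have ht0 : (1 : ℝ) ≤ t := by exact_mod_cast ht
    have hα0 : 0 < α := by
      refine lt_of_le_of_lt ?_ hα
      exact div_nonneg (by linarith) hK0.le
    have h2 : (t : ℝ) - 1 < ((∑ g, if A g = i then v g else 0 : ℕ) : ℝ) := by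
      calc (t : ℝ) - 1 = (((t : ℝ) - 1) / (K : ℝ)) * K := by field_simp
        _ < α * K := by exact mul_lt_mul_of_pos_right hα hK0
        _ ≤ α * mms n (fun g => (v g : ℝ)) := mul_le_mul_of_nonneg_left hm hα0.le
        _ ≤ _ := hle
    have h3 : (t : ℝ) < ((∑ g, if A g = i then v g else 0 : ℕ) : ℝ) + 1 := by linarith
    have h4 : t < (∑ g, if A g = i then v g else 0) + 1 := by exact_mod_cast h3
    omega
  have hi := h i
  by_cases hT : T i = true
  · simp only [hT, if_true] at hi ⊢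
    exact key v₁ K₁ t₁ P₁ h₁ hK₁ ht₁ hα₁ hi
  · simp only [hT] at hi ⊢
    exact key v₂ K₂ t₂ P₂ h₂ hK₂ ht₂ hα₂ hi

theorem alphaStar_le {n m : ℕ} (v : Fin n → Fin m → ℝ) (hv : ∀ i g, 0 ≤ v i g) (β : ℝ)
    (hβ : 0 ≤ β) (h : ∀ α : ℝ, β < α → ∀ A, ¬ IsAlphaMMS α v A) : alphaStar n ≤ β := by
  refine Real.sSup_le (fun α hα => ?_) hβ
  by_contra hlt
  push Not at hlt
  obtain ⟨A, hA⟩ := hα.2.2 m v hv
  exact h α hlt A hA

end Pool.Agent.H14.MMS56
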